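import Pool.Agent.Q191.RR.Final

/-!
# MP_28d764_an, Q1: yes

For some positive parameters the recurrence
`x_{n+1} = (α + x_n + γ x_{n-1} + δ x_{n-2}) / (x_n + C x_{n-1} + D x_{n-2})` has a positive
solution converging neither to the equilibrium nor to any periodic solution.
Here `x 0, x 1, x 2` are `x_{-2}, x_{-1}, x_0`.
-/

set_option autoImplicit false

open Filter Topology

namespace Pool.Agent.Results.MP_28d764_an.Nonconvergent

/-- For every real `t ≥ 10 ^ 6` and all `γ, D` in `(0, 4 ^ (-10 t)]`, the positive parameters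
`α = 1`, `γ`, `δ = 4 ^ (9 t / 10)`, `C = 4 ^ t`, `D` admit a positive bounded solution which
converges to no real number and to no periodic sequence. -/
theorem result (t γ D : ℝ) (ht : 1000000 ≤ t) (hγ : 0 < γ) (hD : 0 < D)
    (hγ' : γ ≤ (4 : ℝ) ^ (-(10 * t))) (hD' : D ≤ (4 : ℝ) ^ (-(10 * t))) :
    ∃ α δ C : ℝ, 0 < α ∧ 0 < δ ∧ 0 < C ∧ α = 1 ∧ δ = (4 : ℝ) ^ (9 * t / 10) ∧ C = (4 : ℝ) ^ t ∧
      ∃ x : ℕ → ℝ, (∀ n, 0 < x n) ∧
        (∀ n, x (n + 3) = (α + x (n + 2) + γ * x (n + 1) + δ * x n) /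
          (x (n + 2) + C * x (n + 1) + D * x n)) ∧
        (∃ M, ∀ n, x n ≤ M) ∧
        (∀ L : ℝ, ¬ Tendsto x atTop (𝓝 L)) ∧
        ∀ p : ℕ → ℝ, (∃ k, 1 ≤ k ∧ ∀ n, p (n + k) = p n) →
          ¬ Tendsto (fun n => x n - p n) atTop (𝓝 0) := by
  obtain ⟨x, h1, h2, h3, h4, h5⟩ := Pool.Agent.Q191.RR.final (γ := γ) (D := D) ht hγ.le hD.le
    hγ' hD'
  exact ⟨1, (4 : ℝ) ^ (9 * t / 10), (4 : ℝ) ^ t, one_pos, by positivity, by positivity, rfl, rfl,
    rfl, x, h1, h2, h3, h4, h5⟩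

end Pool.Agent.Results.MP_28d764_an.Nonconvergent
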